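import Pool.Agent.H39.RP.Final
import Pool.Agent.H39.RP.Induced

/-!
There is a finite-dimensional rational `GL(2|2)`-module `M` in the support ideal `𝓘_1` which is
not `S_1`-projective: the induced module `Ind_{S_1}^G Res_{S_1} M` exists, and `M` is not a direct
summand of it.
-/

namespace Pool.Agent.Results.MP_dc27a2_al.RelativeProjectivity

open Pool.Agent.H39.RP

theorem result :
    ∃ (M : Type) (_ : AddCommGroup M) (_ : Module ℂ M) (ρ : SMod 2 2 M),
      FiniteDimensional ℂ M ∧ InIdeal 1 ρ ∧
      (∃ (I : Type) (_ : AddCommGroup I) (_ : Module ℂ I) (σ : SMod 2 2 I) (ε : I →ₗ[ℂ] M),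
        IsInduced 1 ρ I σ ε) ∧
      ¬ RelProj 1 ρ :=
  ⟨TensorProduct ℂ Q Q, inferInstance, inferInstance, modM, inferInstance, modM_inIdeal,
    exists_induced 1 modM, not_relProj⟩

end Pool.Agent.Results.MP_dc27a2_al.RelativeProjectivity
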